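import Mathlib

namespace Pool.Agent.Results.MP_5493ad_co.Exact

open Finset

/-- Unit segments of the lattice: `(false, x, y)` is the segment from `(x, y)` to `(x+1, y)` and
`(true, x, y)` is the segment from `(x, y)` to `(x, y+1)`. -/
abbrev Seg : Type := Bool × ℕ × ℕ

/-- `E_n`: the unit segments joining adjacent points of `{0,...,n}^2`. -/
def board (n : ℕ) : Finset Seg :=
  (range n ×ˢ range (n + 1)).image (fun p => (false, p.1, p.2)) ∪
    (range (n + 1) ×ˢ range n).image (fun p => (true, p.1, p.2))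

/-- The boundary of the square `[a,a+k] × [b,b+k]`: its `4k` unit segments. -/
def square (k a b : ℕ) : Finset Seg :=
  (range k).image (fun t => (false, a + t, b)) ∪ (range k).image (fun t => (false, a + t, b + k)) ∪
    ((range k).image (fun t => (true, a, b + t)) ∪ (range k).image (fun t => (true, a + k, b + t)))

/-- `R` is a set of segments of the board meeting the boundary of every square of the board. -/
def Destroys (n : ℕ) (R : Finset Seg) : Prop :=
  R ⊆ board n ∧ ∀ k a b, 1 ≤ k → a + k ≤ n → b + k ≤ n → ∃ e ∈ square k a b, e ∈ R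

/-- `f(n)`: the minimum number of segments that destroy all squares. -/
noncomputable def f (n : ℕ) : ℕ := sInf {c | ∃ R, Destroys n R ∧ R.card = c}

/-- The removed segments `(false, i, j)` of the construction. -/
def Vset (n i j : ℕ) : Prop :=
  (2 * i + 1 ≤ 2 * (n / 2) + 1 ∧ i + 1 ≤ j ∧ i + j ≤ 2 * (n / 2) + 1 ∧ (i + j) % 2 = 1) ∨
  (2 * (n / 2) + 1 ≤ 2 * i + 1 ∧ 2 * (n / 2) + 1 ≤ i + j + 1 ∧ j ≤ i ∧ (i + j) % 2 = 0)

/-- The removed segments `(true, i, j)` of the construction. -/
def Hset (n i j : ℕ) : Prop :=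
  (j + 2 ≤ i ∧ i + j + 3 ≤ 2 * (n / 2) + 1 ∧ (i + j) % 2 = 0) ∨
  (i + 1 ≤ j ∧ 2 * (n / 2) + 1 + 2 ≤ i + j ∧ (i + j) % 2 = 1)

instance (n i j : ℕ) : Decidable (Vset n i j) := by unfold Vset; infer_instance
instance (n i j : ℕ) : Decidable (Hset n i j) := by unfold Hset; infer_instance

/-- The construction. -/
def R (n : ℕ) : Finset Seg :=
  if n = 1 then {(false, 0, 0)} else
    (board n).filter (fun e => if e.1 then Hset n e.2.1 e.2.2 else Vset n e.2.1 e.2.2)

lemma mem_board_false {n i j : ℕ} : ((false, i, j) : Seg) ∈ board n ↔ i < n ∧ j ≤ n := by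
  simp [board]

lemma mem_board_true {n i j : ℕ} : ((true, i, j) : Seg) ∈ board n ↔ i ≤ n ∧ j < n := by
  simp [board]

/-- indicator -/
def ind (R : Finset Seg) (e : Seg) : ℕ := if e ∈ R then 1 else 0

lemma card_eq {n : ℕ} {R : Finset Seg} (hR : R ⊆ board n) :
    R.card = ∑ i ∈ range n, ∑ j ∈ range (n + 1), ind R (false, i, j) +
      ∑ i ∈ range (n + 1), ∑ j ∈ range n, ind R (true, i, j) := by
  have h1 : R.card = ∑ e ∈ board n, ind R e := by
    unfold ind
    rw [Finset.sum_ite_mem, Finset.inter_eq_right.mpr hR]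
    simp
  rw [h1]
  unfold board
  rw [Finset.sum_union, Finset.sum_image, Finset.sum_image, Finset.sum_product,
    Finset.sum_product]
  · rintro ⟨a, b⟩ _ ⟨c, d⟩ _ h
    simpa using h
  · rintro ⟨a, b⟩ _ ⟨c, d⟩ _ h
    simpa using h
  · rw [Finset.disjoint_left]
    intro e h1 h2
    rw [Finset.mem_image] at h1 h2
    obtain ⟨p, _, rfl⟩ := h1
    obtain ⟨q, _, h⟩ := h2
    simp at h

lemma row_sum (g : ℕ → ℕ) (n : ℕ) :
    ∑ j ∈ range n, (g j + g (j + 1)) + (g 0 + g n) = 2 * ∑ j ∈ range (n + 1), g j := by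
  rw [Finset.sum_add_distrib]
  have h1 := Finset.sum_range_succ g n
  have h2 := Finset.sum_range_succ' g n
  omega

/-- Double counting: twice the number of removed segments. -/
lemma double_count {n : ℕ} {R : Finset Seg} (hR : R ⊆ board n) :
    2 * R.card = ∑ i ∈ range n, ∑ j ∈ range n,
        (ind R (false, i, j) + ind R (false, i, j + 1) + ind R (true, i, j) +
          ind R (true, i + 1, j)) +
      (∑ i ∈ range n, (ind R (false, i, 0) + ind R (false, i, n)) +
        ∑ j ∈ range n, (ind R (true, 0, j) + ind R (true, n, j))) := by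
  rw [card_eq hR, mul_add]
  have h1 : 2 * ∑ i ∈ range n, ∑ j ∈ range (n + 1), ind R (false, i, j) =
      ∑ i ∈ range n, ∑ j ∈ range n, (ind R (false, i, j) + ind R (false, i, j + 1)) +
        ∑ i ∈ range n, (ind R (false, i, 0) + ind R (false, i, n)) := by
    rw [Finset.mul_sum, ← Finset.sum_add_distrib]
    apply Finset.sum_congr rfl
    intro i _
    exact (row_sum (fun j => ind R (false, i, j)) n).symm
  have h2 : 2 * ∑ i ∈ range (n + 1), ∑ j ∈ range n, ind R (true, i, j) =
      ∑ i ∈ range n, ∑ j ∈ range n, (ind R (true, i, j) + ind R (true, i + 1, j)) +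
        ∑ j ∈ range n, (ind R (true, 0, j) + ind R (true, n, j)) := by
    have hc1 : ∑ i ∈ range (n + 1), ∑ j ∈ range n, ind R (true, i, j) =
        ∑ j ∈ range n, ∑ i ∈ range (n + 1), ind R (true, i, j) := Finset.sum_comm
    have hc2 : ∑ i ∈ range n, ∑ j ∈ range n, (ind R (true, i, j) + ind R (true, i + 1, j)) =
        ∑ j ∈ range n, ∑ i ∈ range n, (ind R (true, i, j) + ind R (true, i + 1, j)) :=
      Finset.sum_comm
    rw [hc1, hc2, Finset.mul_sum, ← Finset.sum_add_distrib]
    apply Finset.sum_congr rfl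
    intro j _
    exact (row_sum (fun i => ind R (true, i, j)) n).symm
  rw [h1, h2]
  have h3 : ∑ i ∈ range n, ∑ j ∈ range n,
        (ind R (false, i, j) + ind R (false, i, j + 1) + ind R (true, i, j) +
          ind R (true, i + 1, j)) =
      ∑ i ∈ range n, ∑ j ∈ range n, (ind R (false, i, j) + ind R (false, i, j + 1)) +
      ∑ i ∈ range n, ∑ j ∈ range n, (ind R (true, i, j) + ind R (true, i + 1, j)) := by
    rw [← Finset.sum_add_distrib]
    apply Finset.sum_congr rfl
    intro i _
    rw [← Finset.sum_add_distrib]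
    apply Finset.sum_congr rfl
    intro j _
    ring
  rw [h3]
  ring

lemma ind_le (R : Finset Seg) (e : Seg) : ind R e ≤ 1 := by
  unfold ind; split_ifs <;> omega

lemma ind_eq_one {R : Finset Seg} {e : Seg} (h : e ∈ R) : ind R e = 1 := by
  unfold ind; rw [if_pos h]

/-- every cell is hit -/
lemma cov_pos {n : ℕ} {R : Finset Seg} (hR : Destroys n R) {i j : ℕ} (hi : i < n) (hj : j < n) :
    1 ≤ ind R (false, i, j) + ind R (false, i, j + 1) + ind R (true, i, j) +
          ind R (true, i + 1, j) := by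
  obtain ⟨e, he, heR⟩ := hR.2 1 i j le_rfl (by omega) (by omega)
  simp only [square, range_one, image_singleton, add_zero, mem_union, mem_singleton] at he
  rcases he with (rfl | rfl) | (rfl | rfl) <;> rw [ind_eq_one heR] <;> omega

lemma sq2 {n : ℕ} {R : Finset Seg} (hR : Destroys n R) {i j : ℕ} (hi : i + 2 ≤ n)
    (hj : j + 2 ≤ n) :
    1 ≤ ind R (false, i, j) + ind R (false, i + 1, j) + ind R (false, i, j + 2) +
      ind R (false, i + 1, j + 2) + ind R (true, i, j) + ind R (true, i, j + 1) +
      ind R (true, i + 2, j) + ind R (true, i + 2, j + 1) := by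
  obtain ⟨e, he, heR⟩ := hR.2 2 i j (by omega) hi hj
  simp only [square, mem_union, mem_image, mem_range] at he
  rcases he with (⟨t, ht, rfl⟩ | ⟨t, ht, rfl⟩) | (⟨t, ht, rfl⟩ | ⟨t, ht, rfl⟩) <;>
    interval_cases t <;> (try simp only [add_zero] at heR) <;> rw [ind_eq_one heR] <;> omega

lemma bd_pos {n : ℕ} (hn : 1 ≤ n) {R : Finset Seg} (hR : Destroys n R) :
    1 ≤ ∑ i ∈ range n, (ind R (false, i, 0) + ind R (false, i, n)) +
        ∑ j ∈ range n, (ind R (true, 0, j) + ind R (true, n, j)) := by
  obtain ⟨e, he, heR⟩ := hR.2 n 0 0 hn (by omega) (by omega)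
  simp only [square, mem_union, mem_image, mem_range, zero_add] at he
  rcases he with (⟨t, ht, rfl⟩ | ⟨t, ht, rfl⟩) | (⟨t, ht, rfl⟩ | ⟨t, ht, rfl⟩)
  · have := Finset.single_le_sum (f := fun i => ind R (false, i, 0) + ind R (false, i, n))
      (fun i _ => Nat.zero_le _) (mem_range.mpr ht)
    rw [ind_eq_one heR] at this
    omega
  · have := Finset.single_le_sum (f := fun i => ind R (false, i, 0) + ind R (false, i, n))
      (fun i _ => Nat.zero_le _) (mem_range.mpr ht)
    rw [ind_eq_one heR] at this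
    omega
  · have := Finset.single_le_sum (f := fun j => ind R (true, 0, j) + ind R (true, n, j))
      (fun i _ => Nat.zero_le _) (mem_range.mpr ht)
    rw [ind_eq_one heR] at this
    omega
  · have := Finset.single_le_sum (f := fun j => ind R (true, 0, j) + ind R (true, n, j))
      (fun i _ => Nat.zero_le _) (mem_range.mpr ht)
    rw [ind_eq_one heR] at this
    omega

/-- The forced diagonal structure starting at a corner leads to a contradiction. -/
lemma chain (m : ℕ) (h v : ℕ → ℕ → ℕ)
    (cov : ∀ i j, i < m + 3 → j < m + 3 → v i j + v i (j + 1) + h i j + h (i + 1) j = 1)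
    (sq : ∀ i j, i + 2 ≤ m + 3 → j + 2 ≤ m + 3 → 1 ≤ v i j + v (i + 1) j + v i (j + 2) +
      v (i + 1) (j + 2) + h i j + h i (j + 1) + h (i + 2) j + h (i + 2) (j + 1))
    (hB : h (m + 3) (m + 1) + h (m + 3) (m + 2) + v (m + 2) (m + 3) ≤ 1)
    (s1 : v 0 1 = 1) (s2 : v 1 0 = 0) : False := by
  have P : ∀ i, i ≤ m → v i (i + 1) = 1 ∧ h (i + 2) i = 1 := by
    intro i
    induction i with
    | zero =>
      intro _
      have c1 := cov 0 0 (by omega) (by omega)
      have c2 := cov 0 1 (by omega) (by omega)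
      have c3 := cov 1 0 (by omega) (by omega)
      have c4 := cov 1 1 (by omega) (by omega)
      have c5 := sq 0 0 (by omega) (by omega)
      simp only [zero_add, Nat.reduceAdd] at c1 c2 c3 c4 c5 ⊢
      omega
    | succ i ih =>
      intro hi
      obtain ⟨p1, p2⟩ := ih (by omega)
      have c1 := cov i (i + 1) (by omega) (by omega)
      have c2 := cov (i + 1) i (by omega) (by omega)
      have c3 := cov (i + 1) (i + 1) (by omega) (by omega)
      have c4 := cov (i + 2) i (by omega) (by omega)
      have c5 := cov (i + 2) (i + 1) (by omega) (by omega)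
      have c6 := cov (i + 1) (i + 2) (by omega) (by omega)
      have c7 := cov (i + 2) (i + 2) (by omega) (by omega)
      have c8 := sq (i + 1) i (by omega) (by omega)
      have c9 := sq (i + 1) (i + 1) (by omega) (by omega)
      simp only [add_assoc, Nat.reduceAdd] at c1 c2 c3 c4 c5 c6 c7 c8 c9 ⊢
      omega
  obtain ⟨p1, p2⟩ := P m le_rfl
  have c1 := cov m (m + 1) (by omega) (by omega)
  have c2 := cov (m + 1) m (by omega) (by omega)
  have c3 := cov (m + 1) (m + 1) (by omega) (by omega)
  have c4 := cov (m + 2) m (by omega) (by omega)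
  have c5 := cov (m + 2) (m + 1) (by omega) (by omega)
  have c6 := cov (m + 1) (m + 2) (by omega) (by omega)
  have c7 := cov (m + 2) (m + 2) (by omega) (by omega)
  have c8 := sq (m + 1) m (by omega) (by omega)
  have c9 := sq (m + 1) (m + 1) (by omega) (by omega)
  simp only [add_assoc, Nat.reduceAdd] at c1 c2 c3 c4 c5 c6 c7 c8 c9
  omega

/-- A removed boundary segment lies near the corner `(0,0)`. -/
lemma corner (m : ℕ) (h v : ℕ → ℕ → ℕ)
    (cov : ∀ i j, i < m + 3 → j < m + 3 → v i j + v i (j + 1) + h i j + h (i + 1) j = 1)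
    (sq : ∀ i j, i + 2 ≤ m + 3 → j + 2 ≤ m + 3 → 1 ≤ v i j + v (i + 1) j + v i (j + 2) +
      v (i + 1) (j + 2) + h i j + h i (j + 1) + h (i + 2) j + h (i + 2) (j + 1))
    (hB : h (m + 3) (m + 1) + h (m + 3) (m + 2) + v (m + 2) (m + 3) + v (m + 1) (m + 3) ≤ 1) :
    1 ≤ v 0 0 + h 0 0 + v 1 0 + h 0 1 := by
  by_contra hcon
  have c1 := cov 0 0 (by omega) (by omega)
  simp only [zero_add] at c1
  have h1 : v 0 1 = 0 := by
    by_contra hne
    exact chain m h v cov sq (by omega) (by omega) (by omega)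
  have h2 : h 1 0 = 0 := by
    by_contra hne
    refine chain m (fun i j => v j i) (fun i j => h j i) ?_ ?_ (by omega)
      (by omega) (by omega)
    · intro i j hi hj
      have := cov j i hj hi
      omega
    · intro i j hi hj
      have := sq j i hj hi
      omega
  omega

lemma odd_lower (m : ℕ) {R : Finset Seg} (hR : Destroys (m + 3) R) :
    (m + 3) ^ 2 + 2 ≤ 2 * R.card := by
  have hdc := double_count hR.1
  have hbd := bd_pos (by omega) hR
  set S1 := ∑ i ∈ range (m + 3), ∑ j ∈ range (m + 3),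
        (ind R (false, i, j) + ind R (false, i, j + 1) + ind R (true, i, j) +
          ind R (true, i + 1, j)) with hS1
  set B := ∑ i ∈ range (m + 3), (ind R (false, i, 0) + ind R (false, i, m + 3)) +
        ∑ j ∈ range (m + 3), (ind R (true, 0, j) + ind R (true, m + 3, j)) with hB
  have hcov : ∀ i j, i < m + 3 → j < m + 3 → 1 ≤ ind R (false, i, j) + ind R (false, i, j + 1) +
      ind R (true, i, j) + ind R (true, i + 1, j) := fun i j hi hj => cov_pos hR hi hj
  have hsum : ∑ i ∈ range (m + 3), ∑ j ∈ range (m + 3), 1 = (m + 3) ^ 2 := by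
    simp [sq]
  have hS1' : (m + 3) ^ 2 ≤ S1 := by
    rw [← hsum, hS1]
    exact Finset.sum_le_sum (fun i hi => Finset.sum_le_sum (fun j hj =>
      hcov i j (mem_range.mp hi) (mem_range.mp hj)))
  by_contra hlt
  push Not at hlt
  have e1 : S1 = (m + 3) ^ 2 := by omega
  have e2 : B = 1 := by omega
  have hcov1 : ∀ i j, i < m + 3 → j < m + 3 → ind R (false, i, j) + ind R (false, i, j + 1) +
      ind R (true, i, j) + ind R (true, i + 1, j) = 1 := by
    intro i j hi hj
    rw [← hsum, hS1] at e1
    have h1 := (Finset.sum_eq_sum_iff_of_le (fun i hi => Finset.sum_le_sum (fun j hj =>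
      hcov i j (mem_range.mp hi) (mem_range.mp hj)))).mp e1.symm i (mem_range.mpr hi)
    have h2 := (Finset.sum_eq_sum_iff_of_le (fun j hj =>
      hcov i j hi (mem_range.mp hj))).mp h1 j (mem_range.mpr hj)
    exact h2.symm
  have hpair : ∀ g : ℕ → ℕ, ∀ a b, a < m + 3 → b < m + 3 → a ≠ b →
      g a + g b ≤ ∑ i ∈ range (m + 3), g i := by
    intro g a b ha hb hab
    rw [← Finset.sum_pair hab]
    apply Finset.sum_le_sum_of_subset
    intro x hx
    rw [mem_insert, mem_singleton] at hx
    rw [mem_range]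
    omega
  have hBB : (ind R (false, 0, 0) + ind R (false, 1, 0)) +
      (ind R (false, m + 2, m + 3) + ind R (false, m + 1, m + 3)) +
      ((ind R (true, 0, 0) + ind R (true, 0, 1)) +
      (ind R (true, m + 3, m + 2) + ind R (true, m + 3, m + 1))) ≤ B := by
    rw [hB, Finset.sum_add_distrib, Finset.sum_add_distrib]
    have q1 := hpair (fun i => ind R (false, i, 0)) 0 1 (by omega) (by omega) (by omega)
    have q2 := hpair (fun i => ind R (false, i, m + 3)) (m + 2) (m + 1) (by omega) (by omega)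
      (by omega)
    have q3 := hpair (fun j => ind R (true, 0, j)) 0 1 (by omega) (by omega) (by omega)
    have q4 := hpair (fun j => ind R (true, m + 3, j)) (m + 2) (m + 1) (by omega) (by omega)
      (by omega)
    omega
  have k1 := corner m (fun i j => ind R (true, i, j)) (fun i j => ind R (false, i, j)) hcov1
    (fun i j hi hj => sq2 hR hi hj) (by omega)
  have k2 := corner m (fun i j => ind R (true, m + 3 - i, m + 2 - j))
    (fun i j => ind R (false, m + 2 - i, m + 3 - j)) ?_ ?_ ?_
  · simp only [Nat.sub_zero, show m + 2 - 1 = m + 1 by omega] at k1 k2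
    omega
  · intro i j hi hj
    have := hcov1 (m + 2 - i) (m + 2 - j) (by omega) (by omega)
    rw [show m + 3 - j = m + 2 - j + 1 by omega, show m + 3 - (j + 1) = m + 2 - j by omega,
      show m + 3 - i = m + 2 - i + 1 by omega, show m + 3 - (i + 1) = m + 2 - i by omega]
    omega
  · intro i j hi hj
    have := sq2 hR (i := m + 1 - i) (j := m + 1 - j) (by omega) (by omega)
    rw [show m + 3 - j = m + 1 - j + 2 by omega, show m + 3 - (j + 2) = m + 1 - j by omega,
      show m + 3 - i = m + 1 - i + 2 by omega, show m + 3 - (i + 2) = m + 1 - i by omega,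
      show m + 2 - i = m + 1 - i + 1 by omega, show m + 2 - (i + 1) = m + 1 - i by omega,
      show m + 2 - j = m + 1 - j + 1 by omega, show m + 2 - (j + 1) = m + 1 - j by omega]
    omega
  · simp only [show m + 3 - (m + 3) = 0 by omega, show m + 2 - (m + 1) = 1 by omega,
      show m + 2 - (m + 2) = 0 by omega]
    omega

lemma gen_lower {n : ℕ} (hn : 1 ≤ n) {R : Finset Seg} (hR : Destroys n R) :
    n ^ 2 + 1 ≤ 2 * R.card := by
  have hdc := double_count hR.1
  have hbd := bd_pos hn hR
  have hsum : ∑ i ∈ range n, ∑ j ∈ range n, 1 = n ^ 2 := by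
    simp [sq]
  have h1 : ∑ i ∈ range n, ∑ j ∈ range n, 1 ≤ ∑ i ∈ range n, ∑ j ∈ range n,
        (ind R (false, i, j) + ind R (false, i, j + 1) + ind R (true, i, j) +
          ind R (true, i + 1, j)) :=
    Finset.sum_le_sum (fun i hi => Finset.sum_le_sum (fun j hj =>
      cov_pos hR (mem_range.mp hi) (mem_range.mp hj)))
  omega

lemma lower {n : ℕ} (hn : 2 ≤ n) {R : Finset Seg} (hR : Destroys n R) :
    (n ^ 2 + 1) / 2 + 1 ≤ R.card := by
  rcases Nat.even_or_odd n with he | ho
  · have h1 := gen_lower (by omega) hR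
    have h2 : (n ^ 2) % 2 = 0 := by
      rw [Nat.pow_mod, Nat.even_iff.mp he]
    omega
  · have h3 : 3 ≤ n := by
      rcases ho with ⟨k, rfl⟩; omega
    obtain ⟨m, rfl⟩ : ∃ m, n = m + 3 := ⟨n - 3, by omega⟩
    have h1 := odd_lower m hR
    have h2 : ((m + 3) ^ 2) % 2 = 1 := by
      rw [Nat.pow_mod, Nat.odd_iff.mp ho]
    omega

lemma R_eq {n : ℕ} (hn : 2 ≤ n) : R n =
    (board n).filter (fun e => if e.1 then Hset n e.2.1 e.2.2 else Vset n e.2.1 e.2.2) := by
  unfold R
  rw [if_neg (by omega)]

lemma R_subset (n : ℕ) (_ : 1 ≤ n) : R n ⊆ board n := by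
  unfold R
  split_ifs with h
  · intro e he
    rw [mem_singleton] at he
    rw [he, mem_board_false]
    omega
  · exact Finset.filter_subset _ _

lemma mem_R_false {n i j : ℕ} (hn : 2 ≤ n) :
    ((false, i, j) : Seg) ∈ R n ↔ (i < n ∧ j ≤ n) ∧ Vset n i j := by
  rw [R_eq hn, mem_filter, mem_board_false]
  simp

lemma mem_R_true {n i j : ℕ} (hn : 2 ≤ n) :
    ((true, i, j) : Seg) ∈ R n ↔ (i ≤ n ∧ j < n) ∧ Hset n i j := by
  rw [R_eq hn, mem_filter, mem_board_true]
  simp

lemma ind_R_false {n i j : ℕ} (hn : 2 ≤ n) :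
    ind (R n) (false, i, j) = if (i < n ∧ j ≤ n) ∧ Vset n i j then 1 else 0 := by
  unfold ind
  simp only [mem_R_false hn]

lemma ind_R_true {n i j : ℕ} (hn : 2 ≤ n) :
    ind (R n) (true, i, j) = if (i ≤ n ∧ j < n) ∧ Hset n i j then 1 else 0 := by
  unfold ind
  simp only [mem_R_true hn]

lemma R_cov {n i j : ℕ} (hn : 2 ≤ n) (hi : i < n) (hj : j < n) :
    ind (R n) (false, i, j) + ind (R n) (false, i, j + 1) + ind (R n) (true, i, j) +
          ind (R n) (true, i + 1, j) ≤ 1 + (if i = n / 2 then (if j = n / 2 then 1 else 0) else 0) := by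
  rw [ind_R_false hn, ind_R_false hn, ind_R_true hn, ind_R_true hn]
  unfold Vset Hset
  split_ifs <;> omega

lemma R_card_le {n : ℕ} (hn : 2 ≤ n) : (R n).card ≤ (n ^ 2 + 1) / 2 + 1 := by
  have hdc := double_count (R_subset n (by omega))
  have h1 : ∑ i ∈ range n, ∑ j ∈ range n,
        (ind (R n) (false, i, j) + ind (R n) (false, i, j + 1) + ind (R n) (true, i, j) +
          ind (R n) (true, i + 1, j)) ≤ n ^ 2 + 1 := by
    calc _ ≤ ∑ i ∈ range n, ∑ j ∈ range n,
          (1 + (if i = n / 2 then (if j = n / 2 then 1 else 0) else 0)) :=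
          Finset.sum_le_sum (fun i hi => Finset.sum_le_sum (fun j hj =>
            R_cov hn (mem_range.mp hi) (mem_range.mp hj)))
      _ = n ^ 2 + 1 := by
          simp only [Finset.sum_add_distrib]
          have h2 : ∑ i ∈ range n, ∑ j ∈ range n,
              (if i = n / 2 then (if j = n / 2 then 1 else 0) else 0) = 1 := by
            rw [Finset.sum_eq_single (n / 2)]
            · rw [Finset.sum_eq_single (n / 2)]
              · simp
              · intro j _ hj
                simp [hj]
              · intro h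
                exact absurd (mem_range.mpr (by omega)) h
            · intro i _ hi
              simp [hi]
            · intro h
              exact absurd (mem_range.mpr (by omega)) h
          rw [h2]
          simp [sq]
  have b1 : ∀ i ∈ range n, ind (R n) (false, i, 0) ≤ if i = n - 1 then n % 2 else 0 := by
    intro i hi
    rw [mem_range] at hi
    rw [ind_R_false hn]
    unfold Vset
    split_ifs <;> omega
  have b2 : ∀ i ∈ range n, ind (R n) (false, i, n) ≤ if i = (n + 1) % 2 then 1 else 0 := by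
    intro i hi
    rw [mem_range] at hi
    rw [ind_R_false hn]
    unfold Vset
    split_ifs <;> omega
  have b3 : ∀ j ∈ range n, ind (R n) (true, 0, j) ≤ 0 := by
    intro j hj
    rw [mem_range] at hj
    rw [ind_R_true hn]
    unfold Hset
    split_ifs <;> omega
  have b4 : ∀ j ∈ range n, ind (R n) (true, n, j) ≤ 0 := by
    intro j hj
    rw [mem_range] at hj
    rw [ind_R_true hn]
    unfold Hset
    split_ifs <;> omega
  have s1 := Finset.sum_le_sum b1
  have s2 := Finset.sum_le_sum b2
  have s3 := Finset.sum_le_sum b3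
  have s4 := Finset.sum_le_sum b4
  rw [Finset.sum_ite_eq', if_pos (mem_range.mpr (by omega))] at s1
  rw [Finset.sum_ite_eq', if_pos (mem_range.mpr (by omega))] at s2
  rw [Finset.sum_const_zero] at s3 s4
  rw [Finset.sum_add_distrib, Finset.sum_add_distrib] at hdc
  have hpar : (n ^ 2) % 2 = n % 2 := by
    rw [Nat.pow_mod]
    rcases Nat.mod_two_eq_zero_or_one n with h | h <;> rw [h]
  omega

lemma R_destroys {n : ℕ} (hn : 2 ≤ n) : Destroys n (R n) := by
  refine ⟨R_subset n (by omega), ?_⟩
  intro k a b hk ha hb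
  -- segments of the four sides
  have sL : ∀ t, t < k → Vset n (a + t) b → ∃ e ∈ square k a b, e ∈ R n := by
    intro t ht h
    refine ⟨(false, a + t, b), ?_, (mem_R_false hn).mpr ⟨⟨by omega, by omega⟩, h⟩⟩
    simp only [square, mem_union, mem_image, mem_range]
    exact Or.inl (Or.inl ⟨t, ht, rfl⟩)
  have sR : ∀ t, t < k → Vset n (a + t) (b + k) → ∃ e ∈ square k a b, e ∈ R n := by
    intro t ht h
    refine ⟨(false, a + t, b + k), ?_, (mem_R_false hn).mpr ⟨⟨by omega, by omega⟩, h⟩⟩
    simp only [square, mem_union, mem_image, mem_range]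
    exact Or.inl (Or.inr ⟨t, ht, rfl⟩)
  have sT : ∀ t, t < k → Hset n a (b + t) → ∃ e ∈ square k a b, e ∈ R n := by
    intro t ht h
    refine ⟨(true, a, b + t), ?_, (mem_R_true hn).mpr ⟨⟨by omega, by omega⟩, h⟩⟩
    simp only [square, mem_union, mem_image, mem_range]
    exact Or.inr (Or.inl ⟨t, ht, rfl⟩)
  have sB : ∀ t, t < k → Hset n (a + k) (b + t) → ∃ e ∈ square k a b, e ∈ R n := by
    intro t ht h
    refine ⟨(true, a + k, b + t), ?_, (mem_R_true hn).mpr ⟨⟨by omega, by omega⟩, h⟩⟩
    simp only [square, mem_union, mem_image, mem_range]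
    exact Or.inr (Or.inr ⟨t, ht, rfl⟩)
  unfold Vset at sL sR
  unfold Hset at sT sB
  by_cases hodd : (a + b) % 2 = 1
  · rcases lt_or_gt_of_ne (show a ≠ b by rintro rfl; omega) with hab | hab
    · by_cases h1 : a + b ≤ 2 * (n / 2) + 1
      · exact sL 0 (by omega) (by omega)
      · by_cases hk2 : k % 2 = 1
        · exact sT (k - 1) (by omega) (by omega)
        · exact sT (k - 2) (by omega) (by omega)
    · by_cases h1 : 2 * (n / 2) + 1 ≤ a + b + 2 * k
      · exact sR (k - 1) (by omega) (by omega)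
      · by_cases hk2 : k % 2 = 1
        · exact sB 0 (by omega) (by omega)
        · exact sB 1 (by omega) (by omega)
  · rcases lt_trichotomy a b with hab | hab | hab
    · by_cases h1 : a + b + 1 ≤ 2 * (n / 2) + 1
      · by_cases hk1 : k = 1
        · exact sR 0 (by omega) (by omega)
        · exact sL 1 (by omega) (by omega)
      · exact sB (k - 1) (by omega) (by omega)
    · by_cases hk2 : k % 2 = 1
      · by_cases h1 : 2 * a + k ≤ 2 * (n / 2) + 1
        · exact sR 0 (by omega) (by omega)
        · exact sL (k - 1) (by omega) (by omega)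
      · by_cases h1 : 2 * a + k + 1 ≤ 2 * (n / 2) + 1
        · exact sR 1 (by omega) (by omega)
        · exact sL (k - 2) (by omega) (by omega)
    · by_cases h1 : 2 * (n / 2) + 1 ≤ a + b + 2 * k - 1
      · by_cases hk1 : k = 1
        · exact sL 0 (by omega) (by omega)
        · exact sR (k - 2) (by omega) (by omega)
      · exact sT 0 (by omega) (by omega)

lemma R_one : Destroys 1 (R 1) ∧ (R 1).card = 1 := by
  refine ⟨⟨R_subset 1 le_rfl, ?_⟩, rfl⟩
  intro k a b hk ha hb
  obtain rfl : k = 1 := by omega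
  obtain rfl : a = 0 := by omega
  obtain rfl : b = 0 := by omega
  exact ⟨(false, 0, 0), by decide, by decide⟩

lemma f_eq {n c : ℕ} {S : Finset Seg} (hS : Destroys n S) (hc : S.card = c)
    (hlow : ∀ T, Destroys n T → c ≤ T.card) : f n = c := by
  apply le_antisymm
  · exact Nat.sInf_le ⟨S, hS, hc⟩
  · unfold f
    refine le_csInf ⟨c, S, hS, hc⟩ ?_
    rintro _ ⟨T, hT, rfl⟩
    exact hlow T hT

/-- Exact value of `f(n)` for every `n`, together with an explicit optimal set. -/
theorem result :
    f 1 = 1 ∧ (∀ n, 2 ≤ n → f n = (n ^ 2 + 1) / 2 + 1) ∧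
      ∀ n, 1 ≤ n → Destroys n (R n) ∧ (R n).card = f n := by
  have h1 : f 1 = 1 := f_eq R_one.1 R_one.2 (fun T hT => by
    have := gen_lower le_rfl hT
    omega)
  have hc : ∀ n, 2 ≤ n → (R n).card = (n ^ 2 + 1) / 2 + 1 := fun n hn =>
    le_antisymm (R_card_le hn) (lower hn (R_destroys hn))
  have h2 : ∀ n, 2 ≤ n → f n = (n ^ 2 + 1) / 2 + 1 := fun n hn =>
    f_eq (R_destroys hn) (hc n hn) (fun T hT => lower hn hT)
  refine ⟨h1, h2, ?_⟩
  intro n hn
  rcases Nat.eq_or_lt_of_le hn with h | h
  · subst h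
    exact ⟨R_one.1, by rw [R_one.2, h1]⟩
  · exact ⟨R_destroys h, by rw [hc n h, h2 n h]⟩

end Pool.Agent.Results.MP_5493ad_co.Exact
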